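import Pool.Agent.MP_66cee2_co.P1.Gen
import Pool.Agent.MP_66cee2_co.H96.Ctr
import Pool.Agent.MP_66cee2_co.H35.Step2

/-!
The case of target dimension at most five and source dimension at least four.
-/

namespace Pool.Agent.MP_66cee2_co.P1

open Module Pool.Agent.MP_66cee2_co.H44

variable {E F : Type*} [NormedAddCommGroup E] [InnerProductSpace ℝ E] [FiniteDimensional ℝ E]
  [NormedAddCommGroup F] [InnerProductSpace ℝ F] [FiniteDimensional ℝ F]

theorem pack_four (hE : 4 ≤ finrank ℝ E) (hF : finrank ℝ F ≤ 5) : Pack E F := by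
  intro g hg
  obtain ⟨o, ho⟩ := H96.exists_ctr4 hE hF hg
  exact ⟨o, ho, H96.ctr_full hE hF hg ho, H35.step2 hE hg ho
    fun c _ _ he he' h a b => H96.mm hE hF hg c he he' h a.1 a.2 b.1 b.2⟩

theorem isometry_four {g : E → F} (hg : Pres g) (hE : 4 ≤ finrank ℝ E) (hF : finrank ℝ F ≤ 5)
    (x y : E) : ‖g x - g y‖ = ‖x - y‖ :=
  iso_of_pack hE (pack_four hE hF) hg x y

end Pool.Agent.MP_66cee2_co.P1
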