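import Pool.Agent.MP_66cee2_co.H44.Main

/-!
In dimension at least five, with one extra dimension in the target, every orthonormal triple
contains a direction whose diameter is mapped to a diameter.
-/

namespace Pool.Agent.MP_66cee2_co.P1

open Module Finset Pool.Agent.MP_66cee2_co.H44
open scoped RealInnerProductSpace

variable {E F : Type*} [NormedAddCommGroup E] [InnerProductSpace ℝ E] [FiniteDimensional ℝ E]
  [NormedAddCommGroup F] [InnerProductSpace ℝ F] [FiniteDimensional ℝ F]

theorem gadget_small (z N : ℕ) (hN : N = 6 + z) (hz : z ≤ 1) (hd : N ≤ finrank ℝ E + 1) :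
    Gadget E 2 N := by
  have hNr : (N : ℝ) = 6 + z := by exact_mod_cast hN
  have hzr : (z : ℝ) ≤ 1 := by exact_mod_cast hz
  have hz0 : (0 : ℝ) ≤ z := Nat.cast_nonneg z
  set r : ℝ := √(N : ℝ) with hr
  have hr2 : r ^ 2 = N := Real.sq_sqrt (by positivity)
  have hr0 : 0 < r := Real.sqrt_pos.2 (by rw [hNr]; positivity)
  have hr3 : 2 ≤ r := by nlinarith
  have hr4 : r ≤ 3 := by nlinarith
  obtain ⟨x, hx1, hx2⟩ := exists_sum_sq 2 le_rfl (r / 2 - 1) (1 / 4) (by push_cast; nlinarith)
  let q : (Bool × Fin 2) ⊕ (Bool ⊕ Fin z) → ℝ :=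
    Sum.elim (fun p => x p.2) (Sum.elim (fun _ => 1 / 2) fun _ => 0)
  let ε : Fin 2 → (Bool × Fin 2) ⊕ (Bool ⊕ Fin z) → ℝ := fun a =>
    Sum.elim (fun p => if p.1 then 1 else -1)
      (Sum.elim (fun τ => (if τ then 1 else -1) * (if a = 0 then 1 else -1)) fun _ => 1)
  have hcard : Fintype.card ((Bool × Fin 2) ⊕ (Bool ⊕ Fin z)) = N := by simp [hN]; omega
  rw [Fin.sum_univ_two] at hx1 hx2
  have hq1 : ∑ i, q i = r - 1 := by
    simp [q, Fintype.sum_sum_type, Fintype.sum_prod_type]; linarith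
  have hq2 : ∑ i, q i ^ 2 = 1 := by
    simp [q, Fintype.sum_sum_type, Fintype.sum_prod_type]; linarith
  refine gadget_of_data (κ := Fin 0) hcard (by simpa using hd) q ε (fun _ _ => 0) (1 / r)
    ?_ ?_ ?_ ?_ ?_ ?_
  · rintro a (⟨σ, i⟩ | τ | i)
    · cases σ <;> simp [ε]
    · cases τ <;> by_cases h : a = 0 <;> simp [ε, h]
    · simp [ε]
  · rw [Finset.sum_sub_distrib, hq1]
    simp only [Finset.sum_const, Finset.card_univ, hcard, nsmul_eq_mul, ← hr2]
    field_simp; ring
  · have : ∀ i, (1 / r - q i) ^ 2 = (1 / r) ^ 2 - 2 * (1 / r) * q i + q i ^ 2 := fun i => by ring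
    simp only [this, Finset.sum_add_distrib, Finset.sum_sub_distrib, ← Finset.mul_sum, hq1, hq2,
      Finset.sum_const, Finset.card_univ, hcard, nsmul_eq_mul, ← hr2]
    field_simp; ring
  · intro a
    simp [q, ε, Fintype.sum_sum_type, Fintype.sum_prod_type]
  · intro a
    simp [q, ε, Fintype.sum_sum_type, Fintype.sum_prod_type]
  · intro a b
    fin_cases a <;> fin_cases b <;>
      simp [q, ε, Fintype.sum_sum_type, Fintype.sum_prod_type] <;> linarith

theorem gadget_two (hE : 5 ≤ finrank ℝ E) : Gadget E 2 (finrank ℝ E + 1) := by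
  by_cases h : finrank ℝ E ≤ 6
  · exact gadget_small (finrank ℝ E - 5) _ (by omega) (by omega) le_rfl
  · refine gadget 1 2 0 ((finrank ℝ E + 1) / 4) ((finrank ℝ E + 1) % 4) 2 _ (by norm_num)
      (by norm_num) (by omega) (by omega) ?_ (by norm_num) le_rfl
    have h1 : (finrank ℝ E + 1) % 4 ≤ 3 := by omega
    have h2 : 8 ≤ finrank ℝ E + 1 := by omega
    generalize (finrank ℝ E + 1) % 4 = z at h1
    generalize finrank ℝ E + 1 = N at h2
    nlinarith

/-- Every orthonormal triple contains a direction whose image midpoint is the centre. -/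
def Tri (g o : E → F) : Prop :=
  ∀ (c : E) (v : Fin 3 → E), Orthonormal ℝ v → ∃ i, mid g c (v i) = o c

theorem exists_tri {g : E → F} (hg : Pres g) (hE : 5 ≤ finrank ℝ E)
    (hF : finrank ℝ F ≤ finrank ℝ E + 1) : ∃ o, IsCtr g o ∧ Tri g o := by
  classical
  have hG := gadget_two hE
  obtain ⟨o, ho⟩ := exists_ctr (m := 1) hg hG (by omega) hF (by omega)
  refine ⟨o, ho, fun c v hv => ?_⟩
  have h := few_nonfull (m := 1) hg hG (by omega) hF ho c v hv
  by_contra hcon
  push Not at hcon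
  rw [Finset.filter_true_of_mem fun i _ => sub_ne_zero.2 (hcon i)] at h
  simp at h

/-- Orthonormal families orthogonal to three given vectors. -/
theorem exists_orth_three (x y z : E) (k : ℕ) (hk : k + 3 ≤ finrank ℝ E) :
    ∃ v : Fin k → E, Orthonormal ℝ v ∧ ∀ i, ⟪v i, x⟫ = 0 ∧ ⟪v i, y⟫ = 0 ∧ ⟪v i, z⟫ = 0 := by
  classical
  let S : Submodule ℝ E := Submodule.span ℝ (({x, y, z} : Finset E) : Set E)
  have hS : finrank ℝ S ≤ 3 := by
    refine (finrank_span_finset_le_card _).trans ?_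
    exact Finset.card_le_three
  have h2 := S.finrank_add_finrank_orthogonal
  have hk' : k ≤ finrank ℝ Sᗮ := by omega
  let b := stdOrthonormalBasis ℝ Sᗮ
  refine ⟨fun i => (b (Fin.castLE hk' i) : E), ?_, fun i => ⟨?_, ?_, ?_⟩⟩
  · exact (b.orthonormal.comp _ (Fin.castLE_injective hk')).comp_linearIsometry Sᗮ.subtypeₗᵢ
  · exact Submodule.inner_left_of_mem_orthogonal (Submodule.subset_span (by simp)) (b _).2
  · exact Submodule.inner_left_of_mem_orthogonal (Submodule.subset_span (by simp)) (b _).2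
  · exact Submodule.inner_left_of_mem_orthogonal (Submodule.subset_span (by simp)) (b _).2

end Pool.Agent.MP_66cee2_co.P1
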