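import Pool.Agent.MP_66cee2_co.P1.Main

/-!
The last steps of the argument, from an abstract description of the centre map.
-/

namespace Pool.Agent.MP_66cee2_co.P1

open Module Finset Pool.Agent.MP_66cee2_co.H44
open scoped RealInnerProductSpace

/-- Every map preserving `√2` has a centre map with full lines that preserves `1 / √2`. -/
def Pack (E F : Type*) [NormedAddCommGroup E] [InnerProductSpace ℝ E]
    [NormedAddCommGroup F] [InnerProductSpace ℝ F] : Prop :=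
  ∀ g : E → F, Pres g → ∃ o, IsCtr g o ∧
    (∀ c x : E, ∃ e, ‖e‖ = 1 ∧ ⟪e, x⟫ = 0 ∧ mid g c e = o c) ∧
    ∀ c s : E, ‖s‖ ^ 2 = 1 / 2 → ‖o (c + s) - o c‖ ^ 2 = 1 / 2

variable {E F : Type*} [NormedAddCommGroup E] [InnerProductSpace ℝ E] [FiniteDimensional ℝ E]
  [NormedAddCommGroup F] [InnerProductSpace ℝ F] {g : E → F}

omit [FiniteDimensional ℝ E] in
theorem Pack.second (P : Pack E F) (hg : Pres g) :
    ∃ h : E → F, ∀ a z, ‖a - z‖ ^ 2 = 3 / 4 → ‖g a - h z‖ ^ 2 = 3 / 4 := by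
  obtain ⟨o, ho, -, ho'⟩ := P g hg
  let G : E → F := fun x => (2 : ℝ) • o ((1 / 2 : ℝ) • x)
  have hG : Pres G := fun x y h => by
    have := ho' ((1 / 2 : ℝ) • y) ((1 / 2 : ℝ) • (x - y)) (by
      rw [norm_smul, mul_pow, h]; norm_num)
    rw [show (1 / 2 : ℝ) • y + (1 / 2 : ℝ) • (x - y) = (1 / 2 : ℝ) • x by module] at this
    simp only [G]
    rw [← smul_sub, norm_smul, mul_pow, this]
    norm_num
  obtain ⟨H, hH, hH', -⟩ := P G hG
  refine ⟨fun z => (1 / 2 : ℝ) • H ((2 : ℝ) • z), fun a z haz => ?_⟩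
  obtain ⟨e, he, hv', hi⟩ := hH' ((2 : ℝ) • z) (a - z)
  have hea : ⟪a - z, e⟫ = (0 : ℝ) := by rw [real_inner_comm, hv']
  have h1 := (hH ((2 : ℝ) • z) _ he).1
  rw [hi, sub_self, norm_zero] at h1
  have hn : ∀ σ : ℝ, σ ^ 2 = 1 / 4 → ‖g a - o (z + σ • e)‖ ^ 2 = 1 := fun σ hσ => by
    have := ho.sphere (z + σ • e) (e := a - z - σ • e) (by
      rw [← sq_eq_sq₀ (norm_nonneg _) zero_le_one, norm_sub_sq_real, real_inner_smul_right, hea,
        haz, norm_smul, mul_pow, Real.norm_eq_abs, sq_abs, hσ, he]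
      norm_num)
    rwa [show z + σ • e + (a - z - σ • e) = a by abel] at this
  have p1 := hn (1 / 2) (by norm_num)
  have p2 := hn (-1 / 2) (by norm_num)
  have e1 : G ((2 : ℝ) • z + e) = (2 : ℝ) • o (z + (1 / 2 : ℝ) • e) := by
    simp only [G]
    rw [show (1 / 2 : ℝ) • ((2 : ℝ) • z + e) = z + (1 / 2 : ℝ) • e by module]
  have e2 : G ((2 : ℝ) • z - e) = (2 : ℝ) • o (z + (-1 / 2 : ℝ) • e) := by
    simp only [G]
    rw [show (1 / 2 : ℝ) • ((2 : ℝ) • z - e) = z + (-1 / 2 : ℝ) • e by module]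
  simp only [mid, half, e1, e2] at hi h1
  simp only [← hi]
  generalize o (z + (1 / 2 : ℝ) • e) = A at h1 p1
  generalize o (z + (-1 / 2 : ℝ) • e) = B at h1 p2
  rw [show (1 / 2 : ℝ) • ((2 : ℝ) • A - (2 : ℝ) • B) = (g a - B) - (g a - A) by module,
    norm_sub_sq_real] at h1
  rw [show g a - (1 / 2 : ℝ) • (1 / 2 : ℝ) • ((2 : ℝ) • A + (2 : ℝ) • B) =
    (1 / 2 : ℝ) • ((g a - B) + (g a - A)) by module, norm_smul, mul_pow, norm_add_sq_real]
  norm_num at h1 ⊢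
  linarith

theorem Pack.rectangle (P : Pack E F) (hg : Pres g) (hE : 4 ≤ finrank ℝ E)
    (s w : E) (hsw : ⟪s, w⟫ = 0) (hr : ‖s‖ ^ 2 + ‖w‖ ^ 2 = 2) : Par g s w := by
  obtain ⟨h, hh⟩ := P.second hg
  intro c
  obtain ⟨v, hv, hv'⟩ := exists_orth_two s w 2 (by omega)
  obtain ⟨t, ht⟩ : ∃ t : ℝ, t ^ 2 = 1 / 2 := ⟨_, Real.sq_sqrt (by norm_num)⟩
  have pp : ⟪v 0, v 0⟫ = (1 : ℝ) := by rw [real_inner_self_eq_norm_sq, hv.1]; norm_num
  have qq : ⟪v 1, v 1⟫ = (1 : ℝ) := by rw [real_inner_self_eq_norm_sq, hv.1]; norm_num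
  have pq : ⟪v 0, v 1⟫ = (0 : ℝ) := hv.2 (by simp)
  have qp : ⟪v 1, v 0⟫ = (0 : ℝ) := hv.2 (by simp)
  have key : ∀ m d : E, ⟪d, d⟫ = 1 / 2 → ⟪v 0, d⟫ = 0 → ⟪v 1, d⟫ = 0 →
      g (m + d) + g (m - d) + (g (m - v 0 + t • v 1) + g (m - v 0 - t • v 1)) =
        (4 : ℝ) • h (m - (1 / 2 : ℝ) • v 0) := by
    intro m d dd pd qd
    have dp : ⟪d, v 0⟫ = (0 : ℝ) := by rw [real_inner_comm, pd]
    have dq : ⟪d, v 1⟫ = (0 : ℝ) := by rw [real_inner_comm, qd]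
    have N : ∀ (x y : E) (α β γ : ℝ), x - y = α • d + β • v 0 + (γ * t) • v 1 →
        ‖x - y‖ ^ 2 = α ^ 2 / 2 + β ^ 2 + γ ^ 2 / 2 := by
      intro x y α β γ e
      rw [e, ← real_inner_self_eq_norm_sq]
      simp only [inner_add_left, inner_add_right, real_inner_smul_left, real_inner_smul_right,
        pp, qq, pq, qp, dd, pd, qd, dp, dq]
      linear_combination (γ ^ 2) * ht
    refine tetra _ _ _ _ _ (hh _ _ ?_) (hh _ _ ?_) (hh _ _ ?_) (hh _ _ ?_) (hg _ _ ?_)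
      (hg _ _ ?_) (hg _ _ ?_) (hg _ _ ?_) (hg _ _ ?_) (hg _ _ ?_)
    · rw [N _ _ 1 (1 / 2) 0 (by module)]; norm_num
    · rw [N _ _ (-1) (1 / 2) 0 (by module)]; norm_num
    · rw [N _ _ 0 (-1 / 2) 1 (by module)]; norm_num
    · rw [N _ _ 0 (-1 / 2) (-1) (by module)]; norm_num
    · rw [N _ _ 2 0 0 (by module)]; norm_num
    · rw [N _ _ 1 1 (-1) (by module)]; norm_num
    · rw [N _ _ 1 1 1 (by module)]; norm_num
    · rw [N _ _ (-1) 1 (-1) (by module)]; norm_num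
    · rw [N _ _ (-1) 1 1 (by module)]; norm_num
    · rw [N _ _ 0 0 2 (by module)]; norm_num
  have hws : ⟪w, s⟫ = (0 : ℝ) := by rw [real_inner_comm, hsw]
  have k : ∀ σ : ℝ, σ ^ 2 = 1 / 4 → _ := fun σ hσ =>
    key (c + (1 / 2 : ℝ) • s + (1 / 2 : ℝ) • w) ((1 / 2 : ℝ) • s + σ • w) (by
      simp only [inner_add_left, inner_add_right, real_inner_smul_left, real_inner_smul_right,
        hsw, hws]
      rw [real_inner_self_eq_norm_sq, real_inner_self_eq_norm_sq]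
      linear_combination (‖w‖ ^ 2) * hσ + (1 / 4 : ℝ) * hr)
      (by simp only [inner_add_right, real_inner_smul_right, (hv' 0).1, (hv' 0).2]; ring)
      (by simp only [inner_add_right, real_inner_smul_right, (hv' 1).1, (hv' 1).2]; ring)
  have k1 := k (1 / 2) (by norm_num)
  have k2 := k (-1 / 2) (by norm_num)
  rw [show c + (1 / 2 : ℝ) • s + (1 / 2 : ℝ) • w + ((1 / 2 : ℝ) • s + (1 / 2 : ℝ) • w) =
      c + s + w by module,
    show c + (1 / 2 : ℝ) • s + (1 / 2 : ℝ) • w - ((1 / 2 : ℝ) • s + (1 / 2 : ℝ) • w) = c by module]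
    at k1
  rw [show c + (1 / 2 : ℝ) • s + (1 / 2 : ℝ) • w + ((1 / 2 : ℝ) • s + (-1 / 2 : ℝ) • w) =
      c + s by module,
    show c + (1 / 2 : ℝ) • s + (1 / 2 : ℝ) • w - ((1 / 2 : ℝ) • s + (-1 / 2 : ℝ) • w) =
      c + w by module] at k2
  exact add_right_cancel (k1.trans k2.symm)

theorem iso_of_pack (hE : 4 ≤ finrank ℝ E) (P : Pack E F) (hg : Pres g) (x y : E) :
    ‖g x - g y‖ = ‖x - y‖ :=
  isometry_of_rect hg (by omega) (P.rectangle hg hE) x y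

end Pool.Agent.MP_66cee2_co.P1
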