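import Pool.Agent.MP_66cee2_co.P1.Gad

/-!
The centre map preserves half of the distance preserved by the map.
-/

namespace Pool.Agent.MP_66cee2_co.P1

open Module Finset Pool.Agent.MP_66cee2_co.H44
open scoped RealInnerProductSpace

variable {E F : Type*} [NormedAddCommGroup E] [InnerProductSpace ℝ E] [FiniteDimensional ℝ E]
  [NormedAddCommGroup F] [InnerProductSpace ℝ F] [FiniteDimensional ℝ F]

/-- The sphere of squared radius `7 / 8` in the hyperplane orthogonal to `s`. -/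
def Sph (s w : E) : Prop := ⟪w, s⟫ = 0 ∧ ⟪w, w⟫ = 7 / 8

theorem exists_between (hE : 5 ≤ finrank ℝ E) {s p q : E} (hp : Sph s p) (hq : Sph s q)
    {κ τ : ℝ} (hκ : ⟪p, q⟫ = κ) (h0 : 0 < 7 / 8 + κ) (h1 : 2 * τ ^ 2 ≤ 7 / 8 * (7 / 8 + κ)) :
    ∃ r, Sph s r ∧ ⟪p, r⟫ = τ ∧ ⟪r, q⟫ = τ := by
  obtain ⟨v, hv, hv'⟩ := exists_orth_three p q s 1 (by omega)
  obtain ⟨a1, a2, a3⟩ := hv' 0
  have a0 : ⟪v 0, v 0⟫ = (1 : ℝ) := by rw [real_inner_self_eq_norm_sq, hv.1]; norm_num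
  have hρ : 0 ≤ 7 / 8 - 2 * τ ^ 2 / (7 / 8 + κ) := by
    rw [sub_nonneg, div_le_iff₀ h0]; exact h1
  obtain ⟨β, hβ⟩ : ∃ β : ℝ, β ^ 2 = 7 / 8 - 2 * τ ^ 2 / (7 / 8 + κ) := ⟨_, Real.sq_sqrt hρ⟩
  obtain ⟨l, hl⟩ : ∃ l : ℝ, l * (7 / 8 + κ) = τ := ⟨τ / (7 / 8 + κ), div_mul_cancel₀ _ h0.ne'⟩
  have hβ' : β ^ 2 = 7 / 8 - 2 * l ^ 2 * (7 / 8 + κ) := by
    rw [hβ, ← hl]; field_simp
  have hκ' : ⟪q, p⟫ = κ := by rw [real_inner_comm, hκ]
  have b1 : ⟪p, v 0⟫ = (0 : ℝ) := by rw [real_inner_comm, a1]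
  have b2 : ⟪q, v 0⟫ = (0 : ℝ) := by rw [real_inner_comm, a2]
  refine ⟨l • (p + q) + β • v 0, ⟨?_, ?_⟩, ?_, ?_⟩ <;>
    simp only [inner_add_left, inner_add_right, real_inner_smul_left, real_inner_smul_right,
      hp.1, hp.2, hq.1, hq.2, hκ, hκ', a0, a1, a2, a3, b1, b2]
  · ring
  · linear_combination hβ'
  · linear_combination hl
  · linear_combination hl

theorem exists_triangle (hE : 5 ≤ finrank ℝ E) {s p q : E} (hp : Sph s p) (hq : Sph s q)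
    (hκ : ⟪p, q⟫ = -29 / 40) : ∃ w : Option (Fin 2) → E, (∀ i, Sph s (w i)) ∧
      (∀ i k, i ≠ k → ⟪w i, w k⟫ = -1 / 8) ∧
      (∀ i, ⟪w i, p⟫ = -1 / 8) ∧ ∀ i, ⟪w i, q⟫ = -1 / 8 := by
  obtain ⟨v, hv, hv'⟩ := exists_orth_three p q s 2 hE
  obtain ⟨γ, hγ, hγ'⟩ := exists_simplex v hv
  have a1 := hγ' p fun i => (hv' i).1
  have a2 := hγ' q fun i => (hv' i).2.1
  have a3 := hγ' s fun i => (hv' i).2.2
  have hκ' : ⟪q, p⟫ = -29 / 40 := by rw [real_inner_comm, hκ]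
  have b1 : ∀ i, ⟪p, γ i⟫ = (0 : ℝ) := fun i => by rw [real_inner_comm, a1]
  have b2 : ∀ i, ⟪q, γ i⟫ = (0 : ℝ) := fun i => by rw [real_inner_comm, a2]
  refine ⟨fun i => (-5 / 6 : ℝ) • (p + q) + γ i, fun i => ⟨?_, ?_⟩, fun i k hik => ?_,
    fun i => ?_, fun i => ?_⟩ <;>
    simp only [inner_add_left, inner_add_right, real_inner_smul_left, real_inner_smul_right,
      hp.1, hp.2, hq.1, hq.2, hκ, hκ', hγ, a1, a2, a3, b1, b2]
  · norm_num
  · norm_num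
  · rw [if_neg hik]; norm_num
  · norm_num
  · norm_num

/-- A two-colouring of the sphere has a triangle in one colour. -/
theorem colouring (hE : 5 ≤ finrank ℝ E) (s : E) (R B : E → Prop)
    (hRB : ∀ w, Sph s w → R w ∨ B w)
    (hR : ∀ a b c, Sph s a → Sph s b → Sph s c → ⟪a, b⟫ = -1 / 8 → ⟪a, c⟫ = -1 / 8 →
      ⟪b, c⟫ = -1 / 8 → R a → R b → R c → False)
    (hB : ∀ a b c, Sph s a → Sph s b → Sph s c → ⟪a, b⟫ = -1 / 8 → ⟪a, c⟫ = -1 / 8 →
      ⟪b, c⟫ = -1 / 8 → B a → B b → B c → False) : False := by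
  have step : ∀ p q, Sph s p → Sph s q → ⟪p, q⟫ = -29 / 40 → R p → R q := by
    intro p q hp hq hκ hRp
    by_contra hRq
    have hBq := (hRB q hq).resolve_left hRq
    obtain ⟨w, h1, h2, h3, h4⟩ := exists_triangle hE hp hq hκ
    have r := fun i k (h : i ≠ k) (x : R (w i)) (y : R (w k)) =>
      hR _ _ _ (h1 i) (h1 k) hp (h2 i k h) (h3 i) (h3 k) x y hRp
    have b := fun i k (h : i ≠ k) (x : B (w i)) (y : B (w k)) =>
      hB _ _ _ (h1 i) (h1 k) hq (h2 i k h) (h4 i) (h4 k) x y hBq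
    rcases hRB _ (h1 none) with x | x <;> rcases hRB _ (h1 (some 0)) with y | y <;>
      rcases hRB _ (h1 (some 1)) with z | z
    · exact r _ _ (by simp) x y
    · exact r _ _ (by simp) x y
    · exact r _ _ (by simp) x z
    · exact b _ _ (by simp) y z
    · exact r _ _ (by simp) y z
    · exact b _ _ (by simp) x z
    · exact b _ _ (by simp) x y
    · exact b _ _ (by simp) x y
  have step2 : ∀ p q, Sph s p → Sph s q → ⟪p, q⟫ = 1 / 2 → R p → R q := by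
    intro p q hp hq hκ hRp
    obtain ⟨r, hr, h1, h2⟩ := exists_between hE hp hq (τ := -29 / 40) hκ (by norm_num)
      (by norm_num)
    exact step _ _ hr hq h2 (step _ _ hp hr h1 hRp)
  have step4 : ∀ p q, Sph s p → Sph s q → ⟪p, q⟫ = -1 / 8 → R p → R q := by
    intro p q hp hq hκ hRp
    obtain ⟨r, hr, h1, h2⟩ := exists_between hE hp hq (τ := 1 / 2) hκ (by norm_num)
      (by norm_num)
    exact step2 _ _ hr hq h2 (step2 _ _ hp hr h1 hRp)
  obtain ⟨p, hp1, hp2, -⟩ := exists_orth_norm (by omega) s s (ρ := 7 / 8) (by norm_num)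
  have hp : Sph s p := ⟨hp2, by rw [real_inner_self_eq_norm_sq, hp1]⟩
  obtain ⟨q, hq, h1, -⟩ := exists_between hE hp hp (τ := -29 / 40) hp.2 (by norm_num)
    (by norm_num)
  obtain ⟨w, h1, h2, -, -⟩ := exists_triangle hE hp hq h1
  have e01 := h2 none (some 0) (by simp)
  have e02 := h2 none (some 1) (by simp)
  have e12 := h2 (some 0) (some 1) (by simp)
  by_cases h : R (w none)
  · exact hR _ _ _ (h1 _) (h1 _) (h1 _) e01 e02 e12 h (step4 _ _ (h1 _) (h1 _) e01 h)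
      (step4 _ _ (h1 _) (h1 _) e02 h)
  · have n : ∀ i, i ≠ none → B (w i) := fun i hi => (hRB _ (h1 i)).resolve_left fun x =>
      h (step4 _ _ (h1 _) (h1 _) (h2 i none hi) x)
    exact hB _ _ _ (h1 _) (h1 _) (h1 _) e01 e02 e12 ((hRB _ (h1 _)).resolve_left h)
      (n _ (by simp)) (n _ (by simp))

variable {g o : E → F}

omit [FiniteDimensional ℝ E] [FiniteDimensional ℝ F] in
theorem Tri.no_triangle (ho : Tri g o) (c : E) {s : E} (hs : ⟪s, s⟫ = 1 / 2) {α : ℝ}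
    (hα : α ^ 2 = 1 / 4) (a b d : E) (ha : Sph s a) (hb : Sph s b) (hd : Sph s d)
    (h1 : ⟪a, b⟫ = -1 / 8) (h2 : ⟪a, d⟫ = -1 / 8) (h3 : ⟪b, d⟫ = -1 / 8)
    (ra : mid g c (α • s + a) ≠ o c) (rb : mid g c (α • s + b) ≠ o c)
    (rd : mid g c (α • s + d) ≠ o c) : False := by
  have key : ∀ x y, Sph s x → Sph s y → ⟪α • s + x, α • s + y⟫ = 1 / 8 + ⟪x, y⟫ := by
    intro x y hx hy
    have : ⟪s, y⟫ = (0 : ℝ) := by rw [real_inner_comm, hy.1]
    simp only [inner_add_left, inner_add_right, real_inner_smul_left, real_inner_smul_right, hs,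
      hx.1, this]
    linear_combination (1 / 2 : ℝ) * hα
  have h1' : ⟪b, a⟫ = -1 / 8 := by rw [real_inner_comm, h1]
  have h2' : ⟪d, a⟫ = -1 / 8 := by rw [real_inner_comm, h2]
  have h3' : ⟪d, b⟫ = -1 / 8 := by rw [real_inner_comm, h3]
  obtain ⟨i, hi⟩ := ho c ![α • s + a, α • s + b, α • s + d] (by
    rw [orthonormal_iff_ite]
    intro i k
    fin_cases i <;> fin_cases k <;>
      simp only [Fin.zero_eta, Fin.mk_one, Fin.reduceFinMk, Matrix.cons_val_zero,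
        Matrix.cons_val_one, Matrix.cons_val, key _ _ ha ha, key _ _ ha hb, key _ _ ha hd,
        key _ _ hb ha, key _ _ hb hb, key _ _ hb hd, key _ _ hd ha, key _ _ hd hb, key _ _ hd hd,
        ha.2, hb.2, hd.2, h1, h2, h3, h1', h2', h3'] <;> norm_num <;> decide)
  fin_cases i
  · exact ra hi
  · exact rb hi
  · exact rd hi

omit [FiniteDimensional ℝ F] in
theorem Tri.half_pres (ho : Tri g o) (hg : Pres g) (hE : 5 ≤ finrank ℝ E) (c s : E)
    (hs : ‖s‖ ^ 2 = 1 / 2) : ‖o (c + s) - o c‖ ^ 2 = 1 / 2 := by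
  by_contra hne
  have hs' : ⟪s, s⟫ = 1 / 2 := by rw [real_inner_self_eq_norm_sq, hs]
  refine colouring hE s (fun w => mid g c ((1 / 2 : ℝ) • s + w) ≠ o c)
    (fun w => mid g (c + s) ((-1 / 2 : ℝ) • s + w) ≠ o (c + s)) (fun w _ => ?_)
    (ho.no_triangle c hs' (by norm_num)) (ho.no_triangle (c + s) hs' (by norm_num))
  by_contra hcon
  push Not at hcon
  obtain ⟨h1, h2⟩ := hcon
  have h3 := hg (c + s - ((-1 / 2 : ℝ) • s + w)) (c - ((1 / 2 : ℝ) • s + w)) (by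
    rw [show c + s - ((-1 / 2 : ℝ) • s + w) - (c - ((1 / 2 : ℝ) • s + w)) = (2 : ℝ) • s by module,
      norm_smul, mul_pow, hs]
    norm_num)
  have h4 : g (c + s - ((-1 / 2 : ℝ) • s + w)) - g (c - ((1 / 2 : ℝ) • s + w)) =
      (2 : ℝ) • (o (c + s) - o c) := by
    rw [← h1, ← h2]
    simp only [mid]
    rw [show c + s + ((-1 / 2 : ℝ) • s + w) = c + ((1 / 2 : ℝ) • s + w) by module]
    module
  rw [h4, norm_smul, mul_pow] at h3
  apply hne
  norm_num at h3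
  linarith

end Pool.Agent.MP_66cee2_co.P1
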