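import Pool.Agent.MP_66cee2_co.P1.Half

/-!
Centroids of regular tetrahedra, the rectangle relation, and the conclusion.
-/

namespace Pool.Agent.MP_66cee2_co.P1

open Module Finset Pool.Agent.MP_66cee2_co.H44
open scoped RealInnerProductSpace

variable {E F : Type*} [NormedAddCommGroup E] [InnerProductSpace ℝ E] [FiniteDimensional ℝ E]
  [NormedAddCommGroup F] [InnerProductSpace ℝ F] [FiniteDimensional ℝ F] {g : E → F}

theorem exists_second (hg : Pres g) (hE : 5 ≤ finrank ℝ E) (hF : finrank ℝ F ≤ finrank ℝ E + 1) :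
    ∃ h : E → F, ∀ a z, ‖a - z‖ ^ 2 = 3 / 4 → ‖g a - h z‖ ^ 2 = 3 / 4 := by
  obtain ⟨o, ho, ho'⟩ := exists_tri hg hE hF
  let G : E → F := fun x => (2 : ℝ) • o ((1 / 2 : ℝ) • x)
  have hG : Pres G := fun x y h => by
    have := ho'.half_pres hg hE ((1 / 2 : ℝ) • y) ((1 / 2 : ℝ) • (x - y)) (by
      rw [norm_smul, mul_pow, h]; norm_num)
    rw [show (1 / 2 : ℝ) • y + (1 / 2 : ℝ) • (x - y) = (1 / 2 : ℝ) • x by module] at this
    simp only [G]
    rw [← smul_sub, norm_smul, mul_pow, this]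
    norm_num
  obtain ⟨H, hH, hH'⟩ := exists_tri hG hE hF
  refine ⟨fun z => (1 / 2 : ℝ) • H ((2 : ℝ) • z), fun a z haz => ?_⟩
  obtain ⟨v, hv, hv'⟩ := exists_orth_two (a - z) (a - z) 3 hE
  obtain ⟨i, hi⟩ := hH' ((2 : ℝ) • z) v hv
  have he : ‖v i‖ = 1 := hv.1 i
  have hea : ⟪a - z, v i⟫ = (0 : ℝ) := by rw [real_inner_comm, (hv' i).1]
  have h1 := (hH ((2 : ℝ) • z) _ he).1
  rw [hi, sub_self, norm_zero] at h1
  generalize v i = e at hi he hea h1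
  have hn : ∀ σ : ℝ, σ ^ 2 = 1 / 4 → ‖g a - o (z + σ • e)‖ ^ 2 = 1 := fun σ hσ => by
    have := ho.sphere (z + σ • e) (e := a - z - σ • e) (by
      rw [← sq_eq_sq₀ (norm_nonneg _) zero_le_one, norm_sub_sq_real, real_inner_smul_right, hea,
        haz, norm_smul, mul_pow, Real.norm_eq_abs, sq_abs, hσ, he]
      norm_num)
    rwa [show z + σ • e + (a - z - σ • e) = a by abel] at this
  have p1 := hn (1 / 2) (by norm_num)
  have p2 := hn (-1 / 2) (by norm_num)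
  have e1 : G ((2 : ℝ) • z + e) = (2 : ℝ) • o (z + (1 / 2 : ℝ) • e) := by
    simp only [G]
    rw [show (1 / 2 : ℝ) • ((2 : ℝ) • z + e) = z + (1 / 2 : ℝ) • e by module]
  have e2 : G ((2 : ℝ) • z - e) = (2 : ℝ) • o (z + (-1 / 2 : ℝ) • e) := by
    simp only [G]
    rw [show (1 / 2 : ℝ) • ((2 : ℝ) • z - e) = z + (-1 / 2 : ℝ) • e by module]
  simp only [mid, half, e1, e2] at hi h1
  simp only [← hi]
  generalize o (z + (1 / 2 : ℝ) • e) = A at h1 p1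
  generalize o (z + (-1 / 2 : ℝ) • e) = B at h1 p2
  rw [show (1 / 2 : ℝ) • ((2 : ℝ) • A - (2 : ℝ) • B) = (g a - B) - (g a - A) by module,
    norm_sub_sq_real] at h1
  rw [show g a - (1 / 2 : ℝ) • (1 / 2 : ℝ) • ((2 : ℝ) • A + (2 : ℝ) • B) =
    (1 / 2 : ℝ) • ((g a - B) + (g a - A)) by module, norm_smul, mul_pow, norm_add_sq_real]
  norm_num at h1 ⊢
  linarith

omit [FiniteDimensional ℝ F] in
theorem tetra (h a b c d : F) (ha : ‖a - h‖ ^ 2 = 3 / 4) (hb : ‖b - h‖ ^ 2 = 3 / 4)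
    (hc : ‖c - h‖ ^ 2 = 3 / 4) (hd : ‖d - h‖ ^ 2 = 3 / 4) (h1 : ‖a - b‖ ^ 2 = 2)
    (h2 : ‖a - c‖ ^ 2 = 2) (h3 : ‖a - d‖ ^ 2 = 2) (h4 : ‖b - c‖ ^ 2 = 2) (h5 : ‖b - d‖ ^ 2 = 2)
    (h6 : ‖c - d‖ ^ 2 = 2) : a + b + (c + d) = (4 : ℝ) • h := by
  have : ‖((a - h) + (b - h)) + ((c - h) + (d - h))‖ ^ 2 = 0 := by
    rw [norm_add_sq_real, norm_add_sq_real, norm_add_sq_real, inner_add_left, inner_add_right,
      inner_add_right]
    simp only [inner_sub_eq, ha, hb, hc, hd, h1, h2, h3, h4, h5, h6]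
    norm_num
  have h0 := norm_eq_zero.1 (pow_eq_zero_iff two_ne_zero |>.1 this)
  linear_combination (norm := module) h0

theorem rectangle (hg : Pres g) (hE : 5 ≤ finrank ℝ E) (hF : finrank ℝ F ≤ finrank ℝ E + 1)
    (s w : E) (hsw : ⟪s, w⟫ = 0) (hr : ‖s‖ ^ 2 + ‖w‖ ^ 2 = 2) : Par g s w := by
  obtain ⟨h, hh⟩ := exists_second hg hE hF
  intro c
  obtain ⟨v, hv, hv'⟩ := exists_orth_two s w 2 (by omega)
  obtain ⟨t, ht⟩ : ∃ t : ℝ, t ^ 2 = 1 / 2 := ⟨_, Real.sq_sqrt (by norm_num)⟩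
  have pp : ⟪v 0, v 0⟫ = (1 : ℝ) := by rw [real_inner_self_eq_norm_sq, hv.1]; norm_num
  have qq : ⟪v 1, v 1⟫ = (1 : ℝ) := by rw [real_inner_self_eq_norm_sq, hv.1]; norm_num
  have pq : ⟪v 0, v 1⟫ = (0 : ℝ) := hv.2 (by simp)
  have qp : ⟪v 1, v 0⟫ = (0 : ℝ) := hv.2 (by simp)
  have key : ∀ m d : E, ⟪d, d⟫ = 1 / 2 → ⟪v 0, d⟫ = 0 → ⟪v 1, d⟫ = 0 →
      g (m + d) + g (m - d) + (g (m - v 0 + t • v 1) + g (m - v 0 - t • v 1)) =
        (4 : ℝ) • h (m - (1 / 2 : ℝ) • v 0) := by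
    intro m d dd pd qd
    have dp : ⟪d, v 0⟫ = (0 : ℝ) := by rw [real_inner_comm, pd]
    have dq : ⟪d, v 1⟫ = (0 : ℝ) := by rw [real_inner_comm, qd]
    have N : ∀ (x y : E) (α β γ : ℝ), x - y = α • d + β • v 0 + (γ * t) • v 1 →
        ‖x - y‖ ^ 2 = α ^ 2 / 2 + β ^ 2 + γ ^ 2 / 2 := by
      intro x y α β γ e
      rw [e, ← real_inner_self_eq_norm_sq]
      simp only [inner_add_left, inner_add_right, real_inner_smul_left, real_inner_smul_right,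
        pp, qq, pq, qp, dd, pd, qd, dp, dq]
      linear_combination (γ ^ 2) * ht
    refine tetra _ _ _ _ _ (hh _ _ ?_) (hh _ _ ?_) (hh _ _ ?_) (hh _ _ ?_) (hg _ _ ?_)
      (hg _ _ ?_) (hg _ _ ?_) (hg _ _ ?_) (hg _ _ ?_) (hg _ _ ?_)
    · rw [N _ _ 1 (1 / 2) 0 (by module)]; norm_num
    · rw [N _ _ (-1) (1 / 2) 0 (by module)]; norm_num
    · rw [N _ _ 0 (-1 / 2) 1 (by module)]; norm_num
    · rw [N _ _ 0 (-1 / 2) (-1) (by module)]; norm_num
    · rw [N _ _ 2 0 0 (by module)]; norm_num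
    · rw [N _ _ 1 1 (-1) (by module)]; norm_num
    · rw [N _ _ 1 1 1 (by module)]; norm_num
    · rw [N _ _ (-1) 1 (-1) (by module)]; norm_num
    · rw [N _ _ (-1) 1 1 (by module)]; norm_num
    · rw [N _ _ 0 0 2 (by module)]; norm_num
  have hws : ⟪w, s⟫ = (0 : ℝ) := by rw [real_inner_comm, hsw]
  have k : ∀ σ : ℝ, σ ^ 2 = 1 / 4 → _ := fun σ hσ =>
    key (c + (1 / 2 : ℝ) • s + (1 / 2 : ℝ) • w) ((1 / 2 : ℝ) • s + σ • w) (by
      simp only [inner_add_left, inner_add_right, real_inner_smul_left, real_inner_smul_right,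
        hsw, hws]
      rw [real_inner_self_eq_norm_sq, real_inner_self_eq_norm_sq]
      linear_combination (‖w‖ ^ 2) * hσ + (1 / 4 : ℝ) * hr)
      (by simp only [inner_add_right, real_inner_smul_right, (hv' 0).1, (hv' 0).2]; ring)
      (by simp only [inner_add_right, real_inner_smul_right, (hv' 1).1, (hv' 1).2]; ring)
  have k1 := k (1 / 2) (by norm_num)
  have k2 := k (-1 / 2) (by norm_num)
  rw [show c + (1 / 2 : ℝ) • s + (1 / 2 : ℝ) • w + ((1 / 2 : ℝ) • s + (1 / 2 : ℝ) • w) =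
      c + s + w by module,
    show c + (1 / 2 : ℝ) • s + (1 / 2 : ℝ) • w - ((1 / 2 : ℝ) • s + (1 / 2 : ℝ) • w) = c by module]
    at k1
  rw [show c + (1 / 2 : ℝ) • s + (1 / 2 : ℝ) • w + ((1 / 2 : ℝ) • s + (-1 / 2 : ℝ) • w) =
      c + s by module,
    show c + (1 / 2 : ℝ) • s + (1 / 2 : ℝ) • w - ((1 / 2 : ℝ) • s + (-1 / 2 : ℝ) • w) =
      c + w by module] at k2
  exact add_right_cancel (k1.trans k2.symm)

omit [FiniteDimensional ℝ F] [InnerProductSpace ℝ F] in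
theorem bound (hg : Pres g) (hE : 3 ≤ finrank ℝ E) (c s : E) (hs : ‖s‖ ^ 2 ≤ 4) :
    ‖g (c + s) - g c‖ ≤ 4 := by
  obtain ⟨y, hy, hys, -⟩ := exists_orth_norm hE s s (ρ := 2 - ‖s‖ ^ 2 / 4) (by linarith)
  have h1 : ∀ α : ℝ, α ^ 2 = 1 / 4 → ‖α • s + y‖ ^ 2 = 2 := fun α hα => by
    rw [norm_add_sq_real, inner_smul_left, real_inner_comm, hys, hy, norm_smul, mul_pow,
      Real.norm_eq_abs, sq_abs, hα]
    ring
  have h2 := hg (c + ((1 / 2 : ℝ) • s + y)) c (by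
    rw [add_sub_cancel_left]; exact h1 _ (by norm_num))
  have h3 := hg (c + ((1 / 2 : ℝ) • s + y)) (c + s) (by
    rw [show c + ((1 / 2 : ℝ) • s + y) - (c + s) = (-1 / 2 : ℝ) • s + y by module]
    exact h1 _ (by norm_num))
  generalize g (c + ((1 / 2 : ℝ) • s + y)) = X at h2 h3
  have h4 : ‖X - g c‖ ≤ 2 := by nlinarith [norm_nonneg (X - g c)]
  have h5 : ‖X - g (c + s)‖ ≤ 2 := by nlinarith [norm_nonneg (X - g (c + s))]
  calc _ = ‖(X - g c) - (X - g (c + s))‖ := by congr 1; abel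
    _ ≤ _ := norm_sub_le _ _
    _ ≤ 4 := by linarith

omit [FiniteDimensional ℝ F] in
theorem isometry_of_rect (hg : Pres g) (hd3 : 3 ≤ finrank ℝ E)
    (hr : ∀ s w : E, ⟪s, w⟫ = 0 → ‖s‖ ^ 2 + ‖w‖ ^ 2 = 2 → Par g s w) (x y : E) :
    ‖g x - g y‖ = ‖x - y‖ := by
  let o : E → F := fun x => (1 / 2 : ℝ) • g x
  have hb : ∀ c s : E, ‖s‖ ^ 2 ≤ 4 → ‖o (c + s) - o c‖ ≤ 2 := fun c s hs => by
    have := bound hg hd3 c s hs
    simp only [o]
    rw [← smul_sub, norm_smul]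
    norm_num
    linarith
  have hpar := par_all (o := o) hd3 (δ := 2) two_pos (by norm_num) (fun s w h1 h2 c => by
    have := hr s w h1 h2 c
    simp only [o]
    rw [← smul_add, this, smul_add]) hb
  let A : E →+ F := AddMonoidHom.mk' (fun t => o t - o 0) fun s w => by
    have := hpar s w 0
    simp only [zero_add] at this
    linear_combination (norm := abel) this
  have hA : Continuous A := by
    refine A.continuous_of_isBounded_nhds_zero (Metric.ball_mem_nhds 0 one_pos)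
      (isBounded_iff_forall_norm_le.2 ⟨2, ?_⟩)
    rintro _ ⟨s, hs, rfl⟩
    have h1 : ‖s‖ < 1 := by simpa using hs
    simpa [A] using hb 0 s (by nlinarith [norm_nonneg s])
  let L := A.toRealLinearMap hA
  have hL : ∀ x y, g x - g y = (2 : ℝ) • L (x - y) := fun x y => by
    rw [map_sub]
    change _ = (2 : ℝ) • (((1 / 2 : ℝ) • g x - o 0) - ((1 / 2 : ℝ) • g y - o 0))
    module
  by_cases h : x - y = 0
  · rw [hL, h]; simp
  have hn : 0 < ‖x - y‖ := norm_pos_iff.2 h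
  obtain ⟨t, ht0, ht⟩ : ∃ t : ℝ, 0 < t ∧ t ^ 2 = 2 :=
    ⟨_, Real.sqrt_pos.2 two_pos, Real.sq_sqrt (by norm_num)⟩
  have h1 := hg ((t / ‖x - y‖) • (x - y)) 0 (by
    rw [sub_zero, norm_smul, mul_pow, Real.norm_eq_abs, sq_abs, div_pow, ht]; field_simp)
  rw [hL, sub_zero, map_smul, smul_comm, ← hL, norm_smul, mul_pow, Real.norm_eq_abs, sq_abs,
    div_pow, ht] at h1
  rw [← sq_eq_sq₀ (norm_nonneg _) (norm_nonneg _)]
  field_simp at h1
  linarith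

theorem isometry_plus_one (hg : Pres g) (hE : 5 ≤ finrank ℝ E)
    (hF : finrank ℝ F ≤ finrank ℝ E + 1) (x y : E) : ‖g x - g y‖ = ‖x - y‖ :=
  isometry_of_rect hg (by omega) (rectangle hg hE hF) x y

/-- Change of scale from the distance `√2` to the distance `1`. -/
theorem unit_of_pres {d n : ℕ}
    (H : ∀ g : EuclideanSpace ℝ (Fin d) → EuclideanSpace ℝ (Fin n), Pres g →
      ∀ x y, ‖g x - g y‖ = ‖x - y‖)
    (f : EuclideanSpace ℝ (Fin d) → EuclideanSpace ℝ (Fin n))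
    (hf : ∀ x y, ‖x - y‖ = 1 → ‖f x - f y‖ = 1) (x y : EuclideanSpace ℝ (Fin d)) :
    ‖f x - f y‖ = ‖x - y‖ := by
  have h2' : (0 : ℝ) < √2 := by positivity
  have hs : √2 ^ 2 = (2 : ℝ) := Real.sq_sqrt (by norm_num)
  let g : EuclideanSpace ℝ (Fin d) → EuclideanSpace ℝ (Fin n) := fun x => √2 • f ((√2)⁻¹ • x)
  have hg : Pres g := fun x y h => by
    have e : ‖x - y‖ = √2 := by rwa [← hs, sq_eq_sq₀ (norm_nonneg _) h2'.le] at h
    have := hf ((√2)⁻¹ • x) ((√2)⁻¹ • y) (by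
      rw [← smul_sub, norm_smul, e, norm_inv, Real.norm_of_nonneg h2'.le,
        inv_mul_cancel₀ h2'.ne'])
    simp only [g]
    rw [← smul_sub, norm_smul, this, mul_one, Real.norm_of_nonneg h2'.le, hs]
  have := H g hg (√2 • x) (√2 • y)
  simp only [g, smul_smul, inv_mul_cancel₀ h2'.ne', one_smul] at this
  rw [← smul_sub, ← smul_sub, norm_smul, norm_smul] at this
  exact mul_left_cancel₀ (by simp) this

end Pool.Agent.MP_66cee2_co.P1
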